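import Pool.Agent.V1143.Maass.Van

/-!
# Odd Hecke-Maass cusp forms of level one: all quadratic twists vanish at the centre

An irreducible cuspidal automorphic representation of PGL(2) over the rationals that is unramified
at every prime and has a spherical vector at infinity is the same thing as a Hecke-Maass cusp form
`f` of level one (up to scalars); the local factor at `p` of its L-function is
`(1 - a(p) p^{-s} + p^{-2s})⁻¹`, with `a(p)` the eigenvalue of the normalised Hecke operator `T_p`.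
Quadratic fields `E` correspond to primitive quadratic Dirichlet characters `χ` of conductor
`|Δ_E|`, and `L(s, π' ⊗ η_E) = ∑ χ(n) a(n) n^{-s}`.
-/

namespace Pool.Agent.Results.MP_17f4cb_nt.OddMaassTwists

open Filter Topology MeasureTheory
open scoped MatrixGroups

/-- `f` (a function on the upper half-plane) is a Hecke-Maass cusp form of level one, with Laplace
eigenvalue `Lam` and normalised Hecke eigenvalues `a n`. -/
structure IsHeckeMaassCuspForm (f : ℂ → ℂ) (Lam : ℂ) (a : ℕ → ℂ) : Prop where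
  /-- `f` is smooth on the upper half-plane -/
  smooth : ContDiffOn ℝ (⊤ : ℕ∞) f {z : ℂ | 0 < z.im}
  /-- `f` is invariant under `SL(2, ℤ)` -/
  modular : ∀ g : SL(2, ℤ), ∀ z : ℂ, 0 < z.im →
    f (((g 0 0 : ℤ) * z + (g 0 1 : ℤ)) / ((g 1 0 : ℤ) * z + (g 1 1 : ℤ))) = f z
  /-- `f` is an eigenfunction of the hyperbolic Laplacian -/
  laplace : ∀ z : ℂ, 0 < z.im →
    -((z.im : ℂ) ^ 2 * (deriv (deriv (fun t : ℝ => f (z + t))) 0
      + deriv (deriv (fun t : ℝ => f (z + t * Complex.I))) 0)) = Lam * f z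
  /-- `f` is bounded -/
  bounded : ∃ B : ℝ, ∀ z : ℂ, 0 < z.im → ‖f z‖ ≤ B
  /-- `f` is cuspidal -/
  cuspidal : ∀ y : ℝ, 0 < y → ∫ x in (0:ℝ)..1, f (x + y * Complex.I) = 0
  /-- `f` is not identically zero -/
  nonzero : ∃ z : ℂ, 0 < z.im ∧ f z ≠ 0
  /-- `f` is an eigenfunction of all normalised Hecke operators `T_p` -/
  hecke : ∀ p : ℕ, p.Prime → ∀ z : ℂ, 0 < z.im →
    (1 / ((Real.sqrt p : ℝ) : ℂ)) *
      (f (p * z) + ∑ b ∈ Finset.range p, f ((z + b) / p)) = a p * f z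
  /-- the sequence `a` is the one with Dirichlet series `∏ (1 - a(p) p^{-s} + p^{-2s})⁻¹` -/
  a_one : a 1 = 1
  /-- the Hecke recursion -/
  a_mul : ∀ p : ℕ, p.Prime → ∀ k : ℕ, 1 ≤ k →
    a (p * k) = a p * a k - (if p ∣ k then a (k / p) else 0)

/-- odd forms -/
def IsOdd (f : ℂ → ℂ) : Prop := ∀ z : ℂ, 0 < z.im → f (-(starRingEnd ℂ) z) = -f z

/-- `v` is the value at `s = 1/2` of the (entire) twisted L-function, which for `Re s > 3/2` is
`∑ χ(n) a(n) n^{-s}`. -/
def IsCentralValue (a : ℕ → ℂ) {q : ℕ} (χ : DirichletCharacter ℂ q) (v : ℂ) : Prop :=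
  ∃ L : ℂ → ℂ, Differentiable ℂ L ∧
    (∀ s : ℂ, 3 / 2 < s.re → LSeriesSummable (fun n : ℕ => χ (n : ZMod q) * a n) s ∧
      L s = LSeries (fun n : ℕ => χ (n : ZMod q) * a n) s) ∧ L (1 / 2) = v

/-- The quadratic fields `E` with `|Δ_E| < x`, through their characters: the primitive quadratic
Dirichlet characters of conductor `q = |Δ_E| < x`. -/
def quadFields (x : ℝ) : Set (Σ q : ℕ, DirichletCharacter ℂ q) :=
  {c | c.1 ≠ 0 ∧ (c.1 : ℝ) < x ∧ c.2.IsPrimitive ∧ c.2 ≠ 1 ∧ c.2 ^ 2 = 1}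

/-- `N(x)` -/
noncomputable def N (x : ℝ) : ℕ := (quadFields x).ncard

/-- `N_{π'}(x)`: the number of `E` with `|Δ_E| < x` and nonzero central value. -/
noncomputable def Nnv (a : ℕ → ℂ) (x : ℝ) : ℕ :=
  {c ∈ quadFields x | ∃ v : ℂ, v ≠ 0 ∧ IsCentralValue a c.2 v}.ncard

open Pool.Agent.V1143.Maass

theorem exists_odd : ∃ (f : ℂ → ℂ) (Lam : ℂ) (a : ℕ → ℂ), IsHeckeMaassCuspForm f Lam a ∧ IsOdd f := by
  obtain ⟨m⟩ := exists_MF
  have hsq : ∀ p : ℕ, p.Prime → ((Real.sqrt p : ℝ) : ℂ) ≠ 0 ∧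
      ((Real.sqrt p : ℝ) : ℂ) * ((Real.sqrt p : ℝ) : ℂ) = p := by
    intro p hp
    have hp0 : (0:ℝ) < p := by exact_mod_cast hp.pos
    constructor
    · exact_mod_cast (Real.sqrt_pos.mpr hp0).ne'
    · have := Real.mul_self_sqrt hp0.le
      exact_mod_cast this
  have hap : ∀ p : ℕ, p.Prime → m.a p = m.mu p / ((Real.sqrt p : ℝ) : ℂ) := by
    intro p hp
    have h := m.b_rec hp (k := 1) le_rfl
    have h1 : ¬ p ∣ 1 := by
      intro h; exact hp.one_lt.ne' (Nat.dvd_one.mp h)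
    rw [if_neg h1, mul_one, m.b_one, mul_one, sub_zero] at h
    unfold MF.a
    rw [h]
    obtain ⟨h2, h3⟩ := hsq p hp
    rw [← h3]
    field_simp
  refine ⟨m.f, m.Lam, m.a, ⟨m.smooth, ?_, ?_, ?_, ?_, ?_, ?_, ?_, ?_⟩, fun z hz => m.odd z hz⟩
  · intro g z hz
    have hdet : (g 0 0 : ℤ) * g 1 1 - g 0 1 * g 1 0 = 1 := by
      have := g.2
      rw [Matrix.det_fin_two] at this
      exact this
    exact m.slc _ _ _ _ hdet z hz
  · intro z hz
    exact m.lap z hz
  · obtain ⟨M, hM⟩ := m.bound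
    exact ⟨M, fun z hz => hM z hz⟩
  · intro y hy
    have h := m.c_zero hy
    unfold MF.c cg at h
    have e : ∀ x : ℝ, m.f (pt x y) * ex (-((0 : ℤ) : ℝ) * x) = m.f (x + y * Complex.I) := by
      intro x
      have : ex (-((0 : ℤ) : ℝ) * x) = 1 := by
        have := ex_int 0
        simpa using this
      rw [this, mul_one]; rfl
    simp_rw [e] at h
    exact h
  · obtain ⟨z, hz, hne⟩ := m.ne
    exact ⟨z, hz, hne⟩
  · intro p hp z hz
    rw [m.hecke p hp z hz, hap p hp]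
    ring
  · unfold MF.a
    rw [m.b_one]; simp
  · intro p hp k hk
    obtain ⟨h2, h3⟩ := hsq p hp
    rw [hap p hp]
    unfold MF.a
    rw [m.b_rec hp hk, Nat.cast_mul, Real.sqrt_mul (Nat.cast_nonneg p)]
    push_cast
    by_cases hd : p ∣ k
    · rw [if_pos hd, if_pos hd]
      obtain ⟨k', rfl⟩ := hd
      rw [Nat.mul_div_cancel_left k' hp.pos, Nat.cast_mul, Real.sqrt_mul (Nat.cast_nonneg p)]
      push_cast
      rw [← h3]
      field_simp
    · rw [if_neg hd, if_neg hd, ← h3]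
      field_simp
      ring

/-- every odd form gives the data used in the helper files -/
noncomputable def toMF {f : ℂ → ℂ} {Lam : ℂ} {a : ℕ → ℂ} (h : IsHeckeMaassCuspForm f Lam a)
    (ho : IsOdd f) : MF where
  f := f
  smooth := h.smooth
  bound := h.bounded
  per := fun z hz => by
    have := h.modular ModularGroup.T z hz
    simpa [ModularGroup.T] using this
  inv := fun z hz => by
    have := h.modular ModularGroup.S z hz
    simpa [ModularGroup.S] using this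
  slc := fun a b c d hd z hz => by
    have := h.modular ⟨!![a, b; c, d], by rw [Matrix.det_fin_two_of]; exact hd⟩ z hz
    simpa using this
  odd := ho
  Lam := Lam
  lap := h.laplace
  ne := h.nonzero
  mu := fun p => ((Real.sqrt p : ℝ) : ℂ) * a p
  hecke := fun p hp z hz => by
    have hp0 : (0:ℝ) < p := by exact_mod_cast hp.pos
    have hne : ((Real.sqrt p : ℝ) : ℂ) ≠ 0 := by exact_mod_cast (Real.sqrt_pos.mpr hp0).ne'
    have := h.hecke p hp z hz
    rw [mul_assoc, ← this]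
    field_simp

lemma toMF_a {f : ℂ → ℂ} {Lam : ℂ} {a : ℕ → ℂ} (h : IsHeckeMaassCuspForm f Lam a)
    (ho : IsOdd f) (n : ℕ) (hn : 1 ≤ n) : (toMF h ho).a n = a n := by
  set m := toMF h ho with hm
  have hmu : ∀ p, m.mu p = ((Real.sqrt p : ℝ) : ℂ) * a p := fun p => rfl
  have hrec : ∀ p : ℕ, p.Prime → ∀ k : ℕ, 1 ≤ k →
      m.a (p * k) = a p * m.a k - (if p ∣ k then m.a (k / p) else 0) := by
    intro p hp k hk
    have hp0 : (0:ℝ) < p := by exact_mod_cast hp.pos
    have h2 : ((Real.sqrt p : ℝ) : ℂ) ≠ 0 := by exact_mod_cast (Real.sqrt_pos.mpr hp0).ne'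
    have h3 : ((Real.sqrt p : ℝ) : ℂ) * ((Real.sqrt p : ℝ) : ℂ) = p := by
      have := Real.mul_self_sqrt hp0.le
      exact_mod_cast this
    unfold MF.a
    rw [m.b_rec hp hk, Nat.cast_mul, Real.sqrt_mul (Nat.cast_nonneg p), hmu]
    push_cast
    by_cases hd : p ∣ k
    · rw [if_pos hd, if_pos hd]
      obtain ⟨k', rfl⟩ := hd
      rw [Nat.mul_div_cancel_left k' hp.pos, Nat.cast_mul, Real.sqrt_mul (Nat.cast_nonneg p)]
      push_cast
      rw [← h3]
      field_simp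
    · rw [if_neg hd, if_neg hd, ← h3]
      field_simp
      ring
  induction n using Nat.strong_induction_on with
  | _ n ih =>
    rcases Nat.eq_or_lt_of_le hn with h1 | h1
    · subst h1
      rw [h.a_one]
      unfold MF.a
      rw [m.b_one]; simp
    · have hp := Nat.minFac_prime (n := n) (by omega)
      obtain ⟨k, hk⟩ := Nat.minFac_dvd n
      set p := n.minFac with hpd
      have hk0 : 1 ≤ k := by
        rcases Nat.eq_zero_or_pos k with h | h
        · rw [h] at hk; omega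
        · exact h
      have hkn : k < n := by
        rw [hk]
        have := hp.two_le
        nlinarith
      rw [hk, hrec p hp k hk0, h.a_mul p hp k hk0, ih k hkn hk0]
      by_cases hd : p ∣ k
      · rw [if_pos hd, if_pos hd]
        have hk1 : 1 ≤ k / p := Nat.div_pos (Nat.le_of_dvd hk0 hd) hp.pos
        rw [ih (k / p) (lt_of_le_of_lt (Nat.div_le_self k p) hkn) hk1]
      · rw [if_neg hd, if_neg hd]

theorem central_zero {f : ℂ → ℂ} {Lam : ℂ} {a : ℕ → ℂ} (h : IsHeckeMaassCuspForm f Lam a)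
    (ho : IsOdd f) {q : ℕ} (hq : q ≠ 0) (χ : DirichletCharacter ℂ q) (hp : χ.IsPrimitive)
    (h2 : χ ^ 2 = 1) : IsCentralValue a χ 0 := by
  have hqn : NeZero q := ⟨hq⟩
  have hinv : χ⁻¹ = χ := by
    rw [inv_eq_iff_mul_eq_one, ← sq]; exact h2
  obtain ⟨L, hL1, hL2, hL3⟩ := (toMF h ho).vanish hp hinv
  refine ⟨L, hL1, fun s hs => ?_, hL2⟩
  have he : ∀ {n : ℕ}, n ≠ 0 → (fun n : ℕ => χ (n : ZMod q) * (toMF h ho).a n) n
      = (fun n : ℕ => χ (n : ZMod q) * a n) n := by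
    intro n hn
    simp only
    rw [toMF_a h ho n (Nat.pos_of_ne_zero hn)]
  obtain ⟨h4, h5⟩ := hL3 s hs
  exact ⟨(LSeriesSummable_congr s he).mp h4, by rw [h5]; exact LSeries_congr he s⟩

/-- central values are unique -/
theorem central_unique {a : ℕ → ℂ} {q : ℕ} {χ : DirichletCharacter ℂ q} {v w : ℂ}
    (hv : IsCentralValue a χ v) (hw : IsCentralValue a χ w) : v = w := by
  obtain ⟨L, hL1, hL2, rfl⟩ := hv
  obtain ⟨L', hL1', hL2', rfl⟩ := hw
  have h1 : AnalyticOnNhd ℂ L Set.univ := fun z _ => hL1.analyticAt z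
  have h2 : AnalyticOnNhd ℂ L' Set.univ := fun z _ => hL1'.analyticAt z
  have h3 : L =ᶠ[𝓝 (2 : ℂ)] L' := by
    have : {s : ℂ | 3 / 2 < s.re} ∈ 𝓝 (2 : ℂ) :=
      (isOpen_lt continuous_const Complex.continuous_re).mem_nhds (by
        change (3 / 2 : ℝ) < (2 : ℂ).re
        norm_num)
    filter_upwards [this] with s hs
    rw [(hL2 s hs).2, (hL2' s hs).2]
  exact h1.eqOn_of_preconnected_of_eventuallyEq h2 isPreconnected_univ (Set.mem_univ 2) h3
    (Set.mem_univ _)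

theorem Nnv_zero {f : ℂ → ℂ} {Lam : ℂ} {a : ℕ → ℂ} (h : IsHeckeMaassCuspForm f Lam a)
    (ho : IsOdd f) (x : ℝ) : Nnv a x = 0 := by
  unfold Nnv
  have : {c ∈ quadFields x | ∃ v : ℂ, v ≠ 0 ∧ IsCentralValue a c.2 v} = ∅ := by
    rw [Set.eq_empty_iff_forall_notMem]
    rintro ⟨q, χ⟩ ⟨⟨hq, _, hp, _, h2⟩, v, hv0, hv⟩
    exact hv0 (central_unique hv (central_zero h ho hq χ hp h2))
  rw [this, Set.ncard_empty]

theorem finite_quadFields (x : ℝ) : (quadFields x).Finite := by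
  have hfin : ∀ q : ℕ, q ≠ 0 → Finite (DirichletCharacter ℂ q) := by
    intro q hq
    have : NeZero q := ⟨hq⟩
    infer_instance
  have hsub : quadFields x ⊆ ⋃ q ∈ {q : ℕ | q ≠ 0 ∧ (q : ℝ) < x},
      (Set.range (fun χ : DirichletCharacter ℂ q => (⟨q, χ⟩ : Σ q : ℕ, DirichletCharacter ℂ q))) := by
    rintro ⟨q, χ⟩ ⟨hq, hx, -⟩
    exact Set.mem_biUnion (x := q) ⟨hq, hx⟩ ⟨χ, rfl⟩
  refine Set.Finite.subset (Set.Finite.biUnion ?_ ?_) hsub
  · refine (Set.finite_Iio (⌈x⌉₊ + 1)).subset ?_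
    rintro q ⟨_, hx⟩
    have : (q : ℝ) < ⌈x⌉₊ + 1 := by
      have := Nat.le_ceil x
      linarith
    exact_mod_cast this
  · rintro q ⟨hq, _⟩
    have := hfin q hq
    exact Set.finite_range _

/-- the quadratic character modulo an odd prime is primitive and quadratic -/
theorem exists_quad (p : ℕ) (hp : p.Prime) (h2 : p ≠ 2) :
    ∃ χ : DirichletCharacter ℂ p, χ.IsPrimitive ∧ χ ≠ 1 ∧ χ ^ 2 = 1 := by
  have hF : Fact p.Prime := ⟨hp⟩
  set χ : DirichletCharacter ℂ p := (quadraticChar (ZMod p)).ringHomComp (Int.castRingHom ℂ) with hχ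
  have hch : ringChar (ZMod p) ≠ 2 := by rwa [ZMod.ringChar_zmod_n]
  have hne : χ ≠ 1 := by
    have := quadraticChar_ne_one hch
    rwa [hχ, MulChar.ringHomComp_ne_one_iff (Int.cast_injective)]
  have hsq : χ ^ 2 = 1 := by
    have := (quadraticChar_isQuadratic (ZMod p)).sq_eq_one
    rw [hχ, MulChar.ringHomComp_pow, this]
    exact MulChar.ringHomComp_one _
  refine ⟨χ, ?_, hne, hsq⟩
  have hd := χ.conductor_dvd_level
  rcases (Nat.dvd_prime hp).mp hd with h | h
  · exact absurd ((DirichletCharacter.eq_one_iff_conductor_eq_one).mpr h) hne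
  · exact h

theorem N_pos (x : ℝ) (hx : 3 < x) : 0 < N x := by
  obtain ⟨χ, h1, h2, h3⟩ := exists_quad 3 Nat.prime_three (by norm_num)
  unfold N
  rw [Set.ncard_pos (finite_quadFields x)]
  exact ⟨⟨3, χ⟩, by norm_num, by exact_mod_cast hx, h1, h2, h3⟩

/-- **Main result.** Odd Hecke-Maass cusp forms of level one exist, and for every one of them the
central value of every quadratic twist vanishes, so the ratio in Q1 tends to `0`, not to `1/2`. -/
theorem result :
    (∃ (f : ℂ → ℂ) (Lam : ℂ) (a : ℕ → ℂ), IsHeckeMaassCuspForm f Lam a ∧ IsOdd f) ∧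
    ∀ (f : ℂ → ℂ) (Lam : ℂ) (a : ℕ → ℂ), IsHeckeMaassCuspForm f Lam a → IsOdd f →
      (∀ (q : ℕ) (χ : DirichletCharacter ℂ q), q ≠ 0 → χ.IsPrimitive → χ ^ 2 = 1 →
        IsCentralValue a χ 0) ∧
      (∀ x : ℝ, Nnv a x = 0) ∧ (∀ x : ℝ, 3 < x → 0 < N x) ∧
      Tendsto (fun x : ℝ => (Nnv a x : ℝ) / (N x : ℝ)) atTop (𝓝 0) ∧
      ¬ Tendsto (fun x : ℝ => (Nnv a x : ℝ) / (N x : ℝ)) atTop (𝓝 (1 / 2)) := by
  refine ⟨exists_odd, fun f Lam a h ho => ?_⟩
  have h0 : (fun x : ℝ => (Nnv a x : ℝ) / (N x : ℝ)) = fun _ => 0 := by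
    funext x
    rw [Nnv_zero h ho x]; simp
  have ht : Tendsto (fun x : ℝ => (Nnv a x : ℝ) / (N x : ℝ)) atTop (𝓝 0) := by
    rw [h0]; exact tendsto_const_nhds
  refine ⟨fun q χ hq hp h2 => central_zero h ho hq χ hp h2, Nnv_zero h ho, N_pos, ht, ?_⟩
  intro ht2
  have := tendsto_nhds_unique ht ht2
  norm_num at this

end Pool.Agent.Results.MP_17f4cb_nt.OddMaassTwists
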